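import Pool.Agent.H45.Tw.NetTw

set_option autoImplicit false

/-!
The maximum of the list packing number over all planar graphs of treewidth at most three, and over
all graphs of treewidth at most three, is five.
-/

namespace Pool.Agent.Results.MP_c3a80b_co.TreewidthThree

open Pool.Agent.TH455 Pool.Agent.H45.Apo Pool.Agent.H45.Tw
open Pool.Agent.H239R2.Planar (HasStraightLineDrawing)

/-- Every finite graph of treewidth at most three has a packing for every assignment of lists of
five colours, and the list packing number of the planar 3-tree `Net d` is exactly five for all
`d ≥ 4`; so five is the maximum of the list packing number over all planar graphs of treewidth at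
most three. -/
theorem result :
    (∀ (V : Type) (_ : Finite V) (G : SimpleGraph V), PartialThreeTree G → ListPackable G 5) ∧
    (∀ d, 4 ≤ d → listPackingNumber (Net d) = 5) ∧
    IsGreatest {n | ∃ (V : Type) (_ : Finite V) (G : SimpleGraph V),
      HasStraightLineDrawing G ∧ PartialThreeTree G ∧ listPackingNumber G = n} 5 := by
  refine ⟨fun V _ G hG => partialThreeTree_packable hG, net_listPackingNumber, ?_, ?_⟩
  · exact ⟨_, net_finite 4, Net 4, drawing 4, net_partialThreeTree 4, net_listPackingNumber 4 le_rfl⟩
  · rintro n ⟨V, _, G, _, hG, rfl⟩
    exact listPackingNumber_le (by norm_num) (partialThreeTree_packable hG)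

end Pool.Agent.Results.MP_c3a80b_co.TreewidthThree
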